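import Pool.Agent.Helper27.PL.S3

/-!
# MP_bae8ce_ag, module S4 : bound for the correlation with a translate
-/

set_option autoImplicit false
set_option linter.unusedSectionVars false

open Finset

namespace PL

noncomputable section

variable {k : Type} [Field k] [Fintype k] [DecidableEq k] {N : ℕ}

theorem s4_hasPat_iff {π : Fin N → Fin N → Bool} {χ : Tup N k} {c : Fin N → k}
    (hc : ∀ i, c i ≠ 0) : HasPat π (fun i => c i • χ i) ↔ HasPat π χ := by
  constructor
  · intro h
    have h2 := h.smul (c := fun i => (c i)⁻¹) (fun i => inv_ne_zero (hc i))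
    have h3 : (fun i => (c i)⁻¹ • (c i • χ i)) = χ := by
      funext i
      rw [smul_smul, inv_mul_cancel₀ (hc i), one_smul]
    rw [h3] at h2
    exact h2
  · intro h
    exact h.smul hc

theorem s4_tinv_rs {π : Fin N → Fin N → Bool} {Φ : Tup N k → ℝ} (h : TInv Φ) :
    TInv (rs π Φ) := by
  intro c hc χ
  unfold rs
  by_cases hp : HasPat π χ
  · rw [if_pos hp, if_pos ((s4_hasPat_iff hc).2 hp)]
    exact h c hc χ
  · rw [if_neg hp, if_neg fun h2 => hp ((s4_hasPat_iff hc).1 h2)]

theorem s4_nr_rs (π : Fin N → Fin N → Bool) (Φ : Tup N k → ℝ) : nr (rs π Φ) ≤ nr Φ := by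
  unfold nr
  apply Finset.sum_le_sum
  intro χ _
  unfold rs
  split_ifs
  · exact le_refl _
  · simpa using sq_nonneg (Φ χ)

theorem s4_sum_update (w : Fin N → k) (i : Fin N) (hw : w i = 0) (χ : Tup N k) (y : k × k) :
    ∑ j, w j • Function.update χ i y j = ∑ j, w j • χ j := by
  apply Finset.sum_congr rfl
  intro j _
  by_cases hj : j = i
  · subst hj
    rw [hw, zero_smul, zero_smul]
  · rw [Function.update_of_ne hj]

/-- The correlations with all nontrivial translates are the same. -/
theorem s4_const (a : Tup N k → ℝ) (ha : TInv a) (i : Fin N) (w : Fin N → k) (hw : w i = 0)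
    {r : k} (hr : r ≠ 0) :
    ip a (fun χ => a (act (up i w r) χ)) = ip a (fun χ => a (act (up i w 1) χ)) := by
  have h1 : ∀ χ, a (act (up i w r) χ) = a (act (up i w 1) (act (dg i r⁻¹) χ)) := by
    intro χ
    rw [← ha.act_dg i hr (act (up i w 1) (act (dg i r⁻¹) χ))]
    congr 1
    have h2 : act (dg i r⁻¹) χ = Function.update χ i (r⁻¹ • χ i) := by
      rw [act_dg]
      funext j
      by_cases hj : j = i
      · subst hj
        simp
      · simp [hj]
    rw [h2, act_up, act_up, act_dg, s4_sum_update w i hw]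
    funext j
    by_cases hj : j = i
    · subst hj
      simp only [Function.update_self, one_smul, smul_add, smul_smul, mul_inv_cancel₀ hr]
    · simp [hj]
  have h3 : (fun χ => a (act (up i w r) χ)) =
      fun χ => (fun χ' => a (act (up i w 1) χ')) (act (dg i r⁻¹) χ) := by
    funext χ
    exact h1 χ
  rw [h3]
  have h4 : dg (N := N) i r⁻¹ * dg i r = 1 := by
    rw [dg_mul, inv_mul_cancel₀ hr, dg_one]
  rw [ip_act_right h4 a (fun χ' => a (act (up i w 1) χ'))]
  congr 1
  funext χ
  exact ha.act_dg i hr χ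

/-- Summation over the plane in terms of lines. -/
theorem s4_sum_line (F : k × k → ℝ) (hF : ∀ c : k, c ≠ 0 → ∀ y, F (c • y) = F y)
    (x ξ : k × k) (hx : ¬ par x ξ) :
    ∑ y, F y = F 0 + (qq k - 1) * F ξ + (qq k - 1) * ∑ t : k, F (x + t • ξ) := by
  have hD : x.1 * ξ.2 - x.2 * ξ.1 ≠ 0 := fun h => hx (sub_eq_zero.1 h)
  have hinj : Function.Injective fun q : k × k => q.1 • x + q.2 • ξ := by
    rintro ⟨α, β⟩ ⟨α', β'⟩ h
    simp only [Prod.ext_iff, Prod.fst_add, Prod.snd_add, Prod.smul_fst, Prod.smul_snd,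
      smul_eq_mul] at h
    obtain ⟨h1, h2⟩ := h
    have e1 : α = α' := by
      apply mul_right_cancel₀ hD
      linear_combination ξ.2 * h1 - ξ.1 * h2
    have e2 : β = β' := by
      apply mul_right_cancel₀ hD
      linear_combination x.1 * h2 - x.2 * h1
    rw [e1, e2]
  have hbij : Function.Bijective fun q : k × k => q.1 • x + q.2 • ξ :=
    Finite.injective_iff_bijective.1 hinj
  rw [← Equiv.sum_comp (Equiv.ofBijective _ hbij) F]
  simp only [Equiv.ofBijective_apply]
  rw [Fintype.sum_prod_type]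
  rw [← Finset.add_sum_erase Finset.univ _ (Finset.mem_univ (0 : k))]
  have hcard : ((univ.erase (0 : k)).card : ℝ) = qq k - 1 := by
    rw [Finset.card_erase_of_mem (Finset.mem_univ _), Finset.card_univ]
    unfold qq
    have : 1 ≤ Fintype.card k := Fintype.card_pos
    push_cast [this]
    ring
  have h0 : ∑ β : k, F ((0 : k) • x + β • ξ) = F 0 + (qq k - 1) * F ξ := by
    rw [← Finset.add_sum_erase Finset.univ _ (Finset.mem_univ (0 : k))]
    congr 1
    · simp
    · rw [← hcard, ← nsmul_eq_mul, ← Finset.sum_const]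
      apply Finset.sum_congr rfl
      intro β hβ
      rw [zero_smul, zero_add]
      exact hF β (Finset.ne_of_mem_erase hβ) ξ
  have h1 : ∀ α ∈ univ.erase (0 : k), ∑ β : k, F (α • x + β • ξ) = ∑ t : k, F (x + t • ξ) := by
    intro α hα
    have hα0 : α ≠ 0 := Finset.ne_of_mem_erase hα
    rw [← Equiv.sum_comp (Equiv.mulLeft₀ α hα0) fun β => F (α • x + β • ξ)]
    apply Finset.sum_congr rfl
    intro t _
    rw [← hF α hα0 (x + t • ξ)]
    congr 1
    simp only [smul_add, smul_smul]
    rfl
  rw [h0, Finset.sum_congr rfl h1, Finset.sum_const, nsmul_eq_mul, hcard]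

/-- The function of one variable. -/
theorem s4_scale_upd (Φ : Tup N k → ℝ) (hΦ : TInv Φ) (χ : Tup N k) (i : Fin N) (c : k)
    (hc : c ≠ 0) (y : k × k) :
    Φ (Function.update χ i (c • y)) = Φ (Function.update χ i y) := by
  have h := hΦ (Function.update (fun _ => 1) i c) (fun j => by
    by_cases hj : j = i
    · subst hj
      simpa using hc
    · simp [hj]) (Function.update χ i y)
  rw [← h]
  congr 1
  funext j
  by_cases hj : j = i
  · subst hj
    simp
  · simp [hj]

theorem s4_line_count (x ξ z : k × k) (hx : ¬ par x ξ) (hz : z ≠ 0) (t t' : k)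
    (h : par (x + t • ξ) z) (h' : par (x + t' • ξ) z) : t = t' := by
  have h1 := par_trans hz h (par_symm h')
  have hD : x.1 * ξ.2 - x.2 * ξ.1 ≠ 0 := fun h => hx (sub_eq_zero.1 h)
  unfold par at h1
  simp only [Prod.fst_add, Prod.snd_add, Prod.smul_fst, Prod.smul_snd, smul_eq_mul] at h1
  apply mul_right_cancel₀ hD
  linear_combination -h1

theorem s4_line_ne (x ξ : k × k) (hx : ¬ par x ξ) (t : k) : x + t • ξ ≠ 0 := by
  intro h
  apply hx
  have h1 := congrArg Prod.fst h
  have h2 := congrArg Prod.snd h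
  simp only [Prod.fst_add, Prod.snd_add, Prod.smul_fst, Prod.smul_snd, smul_eq_mul,
    Prod.fst_zero, Prod.snd_zero] at h1 h2
  unfold par
  linear_combination ξ.2 * h1 - ξ.1 * h2

open Classical in
/-- The bound for the sum of the translates in the generic case. -/
theorem s4_generic {r : ℕ} (Φ : Tup (r + 2) k → ℝ) (hΦ : Adm0 Φ)
    (π : Fin (r + 2) → Fin (r + 2) → Bool) (i : Fin (r + 2))
    (hi : ∀ j, j ≠ i → π i j = false) (χ : Tup (r + 2) k) (hχ : HasPat π χ) (ξ : k × k)
    (hξ : ¬ par (χ i) ξ) :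
    |∑ t : k, rs π Φ (Function.update χ i (χ i + t • ξ))| ≤
      |Φ (Function.update χ i ξ)| + ∑ l ∈ univ.erase i, |Φ (Function.update χ i (χ l))| := by
  have hFs : ∀ c : k, c ≠ 0 → ∀ y, Φ (Function.update χ i (c • y)) =
      Φ (Function.update χ i y) := fun c hc y => s4_scale_upd Φ hΦ.scale χ i c hc y
  have hsum := s4_sum_line (fun y => Φ (Function.update χ i y)) hFs (χ i) ξ hξ
  rw [hΦ.marg χ i, hΦ.zero (Function.update χ i 0) i (by simp)] at hsum
  have hQ : (0 : ℝ) < qq k - 1 := by
    have : 1 < Fintype.card k := Fintype.one_lt_card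
    unfold qq
    have h2 : (1 : ℝ) < (Fintype.card k : ℝ) := by exact_mod_cast this
    linarith
  have hsum2 : ∑ t : k, Φ (Function.update χ i (χ i + t • ξ)) = -Φ (Function.update χ i ξ) := by
    apply mul_left_cancel₀ hQ.ne'
    linarith
  have hdec : ∀ t : k, rs π Φ (Function.update χ i (χ i + t • ξ)) =
      Φ (Function.update χ i (χ i + t • ξ)) -
      (if HasPat π (Function.update χ i (χ i + t • ξ)) then 0 else
        Φ (Function.update χ i (χ i + t • ξ))) := by
    intro t
    unfold rs
    split_ifs <;> ring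
  rw [Finset.sum_congr rfl fun t _ => hdec t, Finset.sum_sub_distrib, hsum2]
  have hbad : ∀ t : k, |(if HasPat π (Function.update χ i (χ i + t • ξ)) then 0 else
        Φ (Function.update χ i (χ i + t • ξ)))| ≤
      ∑ l ∈ univ.erase i, if par (χ i + t • ξ) (χ l) then
        |Φ (Function.update χ i (χ l))| else 0 := by
    intro t
    have hnn : ∀ l ∈ univ.erase i, 0 ≤ if par (χ i + t • ξ) (χ l) then
        |Φ (Function.update χ i (χ l))| else 0 := by
      intro l _
      split_ifs
      · exact abs_nonneg _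
      · exact le_refl _
    split_ifs with hp
    · rw [abs_zero]
      exact Finset.sum_nonneg hnn
    · have hex : ∃ l ∈ univ.erase i, par (χ i + t • ξ) (χ l) := by
        by_contra hcon
        push Not at hcon
        apply hp
        have hne : χ i + t • ξ ≠ 0 := s4_line_ne _ _ hξ t
        refine ⟨fun j => ?_, fun j l => ?_⟩
        · by_cases hj : j = i
          · subst hj
            rw [Function.update_self]
            exact hne
          · rw [Function.update_of_ne hj]
            exact hχ.1 j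
        · by_cases hj : j = i
          · by_cases hl : l = i
            · rw [hj, hl]
              constructor
              · intro _
                exact (hχ.2 i i).1 (par_refl _)
              · intro _
                exact par_refl _
            · subst hj
              rw [Function.update_self, Function.update_of_ne hl, hi l hl]
              constructor
              · intro h
                exact absurd h (hcon l (Finset.mem_erase.2 ⟨hl, Finset.mem_univ _⟩))
              · intro h
                exact absurd h (by simp)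
          · by_cases hl : l = i
            · subst hl
              rw [Function.update_self, Function.update_of_ne hj]
              have h5 : π j l = false := by
                rw [Bool.eq_false_iff]
                intro h6
                have h7 := par_symm ((hχ.2 j l).2 h6)
                have h8 := (hχ.2 l j).1 h7
                rw [hi j hj] at h8
                exact absurd h8 (by simp)
              rw [h5]
              constructor
              · intro h
                exact absurd (par_symm h) (hcon j (Finset.mem_erase.2 ⟨hj, Finset.mem_univ _⟩))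
              · intro h
                exact absurd h (by simp)
            · rw [Function.update_of_ne hj, Function.update_of_ne hl]
              exact hχ.2 j l
      obtain ⟨l, hl, hpar⟩ := hex
      have h1 : |Φ (Function.update χ i (χ i + t • ξ))| =
          if par (χ i + t • ξ) (χ l) then |Φ (Function.update χ i (χ l))| else 0 := by
        rw [if_pos hpar]
        obtain ⟨c, hc⟩ := exists_smul_of_par (s4_line_ne _ _ hξ t) hpar
        have hc0 : c ≠ 0 := by
          rintro rfl
          rw [zero_smul] at hc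
          exact hχ.1 l hc
        rw [hc, hFs c hc0]
      rw [h1]
      exact Finset.single_le_sum hnn hl
  have hbad2 : |∑ t : k, (if HasPat π (Function.update χ i (χ i + t • ξ)) then 0 else
        Φ (Function.update χ i (χ i + t • ξ)))| ≤
      ∑ l ∈ univ.erase i, |Φ (Function.update χ i (χ l))| := by
    refine (Finset.abs_sum_le_sum_abs _ _).trans ((Finset.sum_le_sum fun t _ => hbad t).trans ?_)
    rw [Finset.sum_comm]
    apply Finset.sum_le_sum
    intro l _
    rw [← Finset.sum_filter, Finset.sum_const, nsmul_eq_mul]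
    have hcard : (univ.filter fun t : k => par (χ i + t • ξ) (χ l)).card ≤ 1 := by
      rw [Finset.card_le_one]
      intro t ht t' ht'
      rw [Finset.mem_filter] at ht ht'
      exact s4_line_count _ _ _ hξ (hχ.1 l) t t' ht.2 ht'.2
    have hcard2 : ((univ.filter fun t : k => par (χ i + t • ξ) (χ l)).card : ℝ) ≤ 1 := by
      exact_mod_cast hcard
    nlinarith [abs_nonneg (Φ (Function.update χ i (χ l)))]
  calc |-Φ (Function.update χ i ξ) - ∑ t : k,
        (if HasPat π (Function.update χ i (χ i + t • ξ)) then 0 else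
          Φ (Function.update χ i (χ i + t • ξ)))|
      ≤ |-Φ (Function.update χ i ξ)| + |∑ t : k,
        (if HasPat π (Function.update χ i (χ i + t • ξ)) then 0 else
          Φ (Function.update χ i (χ i + t • ξ)))| := abs_sub _ _
    _ ≤ _ := by
        rw [abs_neg]
        linarith

/-- The bound in the parallel case. -/
theorem s4_parallel {r : ℕ} (Φ : Tup (r + 2) k → ℝ) (hΦ : Adm0 Φ)
    (π : Fin (r + 2) → Fin (r + 2) → Bool) (i : Fin (r + 2)) (χ : Tup (r + 2) k)
    (hχ : HasPat π χ) (ξ : k × k) (hξ : par (χ i) ξ) :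
    |∑ t : k, rs π Φ (Function.update χ i (χ i + t • ξ))| ≤ qq k * |rs π Φ χ| := by
  obtain ⟨c, hc⟩ := exists_smul_of_par (hχ.1 i) hξ
  refine (Finset.abs_sum_le_sum_abs _ _).trans ?_
  have h : ∀ t : k, |rs π Φ (Function.update χ i (χ i + t • ξ))| ≤ |rs π Φ χ| := by
    intro t
    have h1 : χ i + t • ξ = (1 + t * c) • χ i := by
      rw [hc, add_smul, one_smul, mul_smul]
    rw [h1]
    by_cases h0 : 1 + t * c = 0
    · rw [h0, zero_smul]
      have h2 : rs π Φ (Function.update χ i 0) = 0 := by
        unfold rs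
        rw [if_neg]
        intro h3
        exact h3.1 i (by simp)
      rw [h2, abs_zero]
      exact abs_nonneg _
    · rw [s4_scale_upd (rs π Φ) (s4_tinv_rs hΦ.scale) χ i _ h0, Function.update_eq_self]
  refine (Finset.sum_le_sum fun t _ => h t).trans ?_
  rw [Finset.sum_const, nsmul_eq_mul, Finset.card_univ]
  exact le_refl _

theorem s4_upd_sum (G : Tup N k → ℝ) (i : Fin N) :
    ∑ χ : Tup N k, ∑ y : k × k, G (Function.update χ i y) = qq k ^ 2 * ∑ χ, G χ := by
  have hinv : Function.Involutive fun q : Tup N k × (k × k) =>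
      ((Function.update q.1 i q.2, q.1 i) : Tup N k × (k × k)) := by
    rintro ⟨χ, y⟩
    simp
  rw [← Fintype.sum_prod_type' (f := fun (χ : Tup N k) (y : k × k) => G (Function.update χ i y))]
  have h2 := Equiv.sum_comp (hinv.toPerm) fun q : Tup N k × (k × k) => G q.1
  have h3 : ∑ q : Tup N k × (k × k), G (Function.update q.1 i q.2) =
      ∑ q : Tup N k × (k × k), G q.1 := by
    rw [← h2]
    rfl
  rw [h3, Fintype.sum_prod_type]
  simp only [Finset.sum_const, Finset.card_univ, Fintype.card_prod, nsmul_eq_mul, qq]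
  rw [← Finset.mul_sum]
  push_cast
  ring

theorem s4_qq : 1 < qq k := by
  have : 1 < Fintype.card k := Fintype.one_lt_card
  unfold qq
  exact_mod_cast this

theorem s4_point (Φ : Tup N k → ℝ) (hs : TInv Φ) (hz : ∀ χ i, χ i = 0 → Φ χ = 0)
    (i : Fin N) (χ : Tup N k) (z : k × k) :
    (qq k - 1) * Φ (Function.update χ i z) ^ 2 ≤ ∑ y : k × k, Φ (Function.update χ i y) ^ 2 := by
  by_cases h0 : z = 0
  · rw [h0, hz (Function.update χ i 0) i (by simp)]
    simpa using Finset.sum_nonneg fun y _ => sq_nonneg (Φ (Function.update χ i y))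
  · have hinj : Function.Injective fun c : k => c • z := smul_left_injective k h0
    have hcard : ((univ.erase (0 : k)).card : ℝ) = qq k - 1 := by
      rw [Finset.card_erase_of_mem (Finset.mem_univ _), Finset.card_univ]
      unfold qq
      have : 1 ≤ Fintype.card k := Fintype.card_pos
      push_cast [this]
      ring
    have h1 : (qq k - 1) * Φ (Function.update χ i z) ^ 2 =
        ∑ y ∈ (univ.erase (0 : k)).image fun c : k => c • z, Φ (Function.update χ i y) ^ 2 := by
      rw [Finset.sum_image fun a _ b _ h => hinj h, ← hcard, ← nsmul_eq_mul, ← Finset.sum_const]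
      apply Finset.sum_congr rfl
      intro c hc
      rw [s4_scale_upd Φ hs χ i c (Finset.ne_of_mem_erase hc)]
    rw [h1]
    exact Finset.sum_le_sum_of_subset_of_nonneg (Finset.subset_univ _) fun _ _ _ => sq_nonneg _

theorem s4_l2 (Φ : Tup N k → ℝ) (hs : TInv Φ) (hz : ∀ χ i, χ i = 0 → Φ χ = 0)
    (i : Fin N) (z : Tup N k → k × k) :
    nr (fun χ => Φ (Function.update χ i (z χ))) ≤ qq k ^ 2 / (qq k - 1) * nr Φ := by
  have hQ : (0 : ℝ) < qq k - 1 := by linarith [s4_qq (k := k)]
  rw [div_mul_eq_mul_div, le_div_iff₀ hQ]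
  unfold nr
  rw [Finset.sum_mul, ← s4_upd_sum (fun χ => Φ χ ^ 2) i]
  apply Finset.sum_le_sum
  intro χ _
  rw [mul_comm]
  exact s4_point Φ hs hz i χ (z χ)

/-- Cauchy-Schwarz for absolute values. -/
theorem s4_cs (a b : Tup N k → ℝ) (n : ℝ) (C : ℝ) (hn : 0 ≤ n) (hC : 0 ≤ C) (ha : nr a ≤ n)
    (hb : nr b ≤ C * n) : ∑ χ, |a χ| * |b χ| ≤ Real.sqrt C * n := by
  have h1 := abs_ip_le (fun χ => |a χ|) (fun χ => |b χ|)
  have h2 : nr (fun χ => |a χ|) = nr a := by
    unfold nr
    exact Finset.sum_congr rfl fun χ _ => sq_abs _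
  have h3 : nr (fun χ => |b χ|) = nr b := by
    unfold nr
    exact Finset.sum_congr rfl fun χ _ => sq_abs _
  rw [h2, h3] at h1
  refine (le_abs_self _).trans (h1.trans ?_)
  calc Real.sqrt (nr a) * Real.sqrt (nr b) ≤ Real.sqrt n * Real.sqrt (C * n) := by
        apply mul_le_mul (Real.sqrt_le_sqrt ha) (Real.sqrt_le_sqrt hb) (Real.sqrt_nonneg _)
          (Real.sqrt_nonneg _)
    _ = Real.sqrt C * n := by
        rw [Real.sqrt_mul hC, mul_comm (Real.sqrt C), ← mul_assoc, Real.mul_self_sqrt hn, mul_comm]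

theorem s4_final (Q n N c : ℝ) (hQ : 2 ≤ Q) (hn : 0 ≤ n) (hN : 2 ≤ N)
    (h : (Q - 1) * c ≤ n + Q * (2 / (Q - 1) * n) + N * (Real.sqrt (Q ^ 2 / (Q - 1)) * n)) :
    c ≤ 10 * N / Real.sqrt Q * n := by
  have hQ1 : 0 < Q - 1 := by linarith
  have hQ0 : 0 < Q := by linarith
  have hs : 0 < Real.sqrt Q := Real.sqrt_pos.2 hQ0
  have hsq : Real.sqrt Q ^ 2 = Q := Real.sq_sqrt hQ0.le
  -- bound for the last root
  have h1 : Real.sqrt (Q ^ 2 / (Q - 1)) ≤ 3 * (Q - 1) / Real.sqrt Q := by
    apply Real.sqrt_le_iff.2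
    refine ⟨by positivity, ?_⟩
    rw [div_pow, hsq, div_le_div_iff₀ hQ1 hQ0]
    nlinarith [mul_pos hQ1 hQ1, mul_pos hQ0 hQ0, sq_nonneg (Q - 2), mul_nonneg (mul_nonneg hQ0.le hQ0.le) hQ0.le, pow_nonneg (sub_nonneg.2 hQ) 3, pow_nonneg (sub_nonneg.2 hQ) 2]
  have h2 : (1 : ℝ) ≤ 3 / 2 * (Q - 1) / Real.sqrt Q := by
    rw [le_div_iff₀ hs, one_mul]
    apply Real.sqrt_le_iff.2
    refine ⟨by linarith, ?_⟩
    nlinarith [sq_nonneg (Q - 2)]
  have h3 : Q * (2 / (Q - 1)) ≤ 6 * (Q - 1) / Real.sqrt Q := by
    have e1 : Q * (2 / (Q - 1)) ≤ 4 := by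
      rw [mul_div_assoc', div_le_iff₀ hQ1]
      linarith
    have e2 : (4 : ℝ) ≤ 6 * (Q - 1) / Real.sqrt Q := by
      have := mul_le_mul_of_nonneg_left h2 (show (0 : ℝ) ≤ 4 by norm_num)
      calc (4 : ℝ) = 4 * 1 := by ring
        _ ≤ 4 * (3 / 2 * (Q - 1) / Real.sqrt Q) := this
        _ = 6 * (Q - 1) / Real.sqrt Q := by ring
    linarith
  have h4 : (Q - 1) * c ≤ (Q - 1) * (10 * N / Real.sqrt Q * n) := by
    refine h.trans ?_
    have e1 : n ≤ (3 / 2 * (Q - 1) / Real.sqrt Q) * n := by nlinarith
    have e2 : Q * (2 / (Q - 1) * n) ≤ (6 * (Q - 1) / Real.sqrt Q) * n := by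
      calc Q * (2 / (Q - 1) * n) = Q * (2 / (Q - 1)) * n := by ring
        _ ≤ _ := mul_le_mul_of_nonneg_right h3 hn
    have e3 : N * (Real.sqrt (Q ^ 2 / (Q - 1)) * n) ≤ N * ((3 * (Q - 1) / Real.sqrt Q) * n) :=
      mul_le_mul_of_nonneg_left (mul_le_mul_of_nonneg_right h1 hn) (by linarith)
    have e4 : (3 / 2 * (Q - 1) / Real.sqrt Q) * n + (6 * (Q - 1) / Real.sqrt Q) * n +
        N * ((3 * (Q - 1) / Real.sqrt Q) * n) = (15 / 2 + 3 * N) * ((Q - 1) / Real.sqrt Q * n) := by
      ring
    have e5 : (Q - 1) * (10 * N / Real.sqrt Q * n) = (10 * N) * ((Q - 1) / Real.sqrt Q * n) := by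
      ring
    have e6 : 0 ≤ (Q - 1) / Real.sqrt Q * n := by positivity
    have e7 : (15 / 2 + 3 * N) * ((Q - 1) / Real.sqrt Q * n) ≤
        (10 * N) * ((Q - 1) / Real.sqrt Q * n) :=
      mul_le_mul_of_nonneg_right (by linarith) e6
    linarith
  exact le_of_mul_le_mul_left h4 hQ1

theorem c_bound {r : ℕ} (Φ : Tup (r + 2) k → ℝ) (hΦ : Adm0 Φ)
    (π : Fin (r + 2) → Fin (r + 2) → Bool) (i : Fin (r + 2))
    (hi : ∀ j, j ≠ i → π i j = false) (w : Fin (r + 2) → k) (hw : w i = 0) (hw0 : w ≠ 0) :
    |ip (rs π Φ) (fun χ => rs π Φ (act (up i w 1) χ))| ≤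
      (10 * (r + 2) : ℝ) / Real.sqrt (qq k) * nr Φ := by
  classical
  set a := rs π Φ with ha
  set c := ip a (fun χ => a (act (up i w 1) χ)) with hc
  have hTa : TInv a := s4_tinv_rs hΦ.scale
  have hQ1 := s4_qq (k := k)
  have hQ : (0 : ℝ) < qq k - 1 := by linarith
  have hQ2 : (2 : ℝ) ≤ qq k := by
    have : 2 ≤ Fintype.card k := Fintype.one_lt_card
    unfold qq
    exact_mod_cast this
  -- the sum over all translates
  let ξ : Tup (r + 2) k → k × k := fun χ => ∑ j, w j • χ j
  let S : Tup (r + 2) k → ℝ := fun χ => ∑ t : k, a (Function.update χ i (χ i + t • ξ χ))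
  have hS : ip a S = nr a + (qq k - 1) * c := by
    have h1 : ip a S = ∑ t : k, ip a (fun χ => a (act (up i w t) χ)) := by
      unfold ip
      rw [Finset.sum_comm]
      apply Finset.sum_congr rfl
      intro χ _
      rw [← Finset.mul_sum]
      congr 1
      apply Finset.sum_congr rfl
      intro t _
      beta_reduce
      rw [act_up]
    rw [h1, ← Finset.add_sum_erase Finset.univ _ (Finset.mem_univ (0 : k))]
    congr 1
    · rw [← ip_self]
      congr 1
      funext χ
      rw [act_up, zero_smul, add_zero, Function.update_eq_self]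
    · rw [Finset.sum_congr rfl fun t ht => s4_const a hTa i w hw (Finset.ne_of_mem_erase ht),
        Finset.sum_const, nsmul_eq_mul]
      congr 1
      rw [Finset.card_erase_of_mem (Finset.mem_univ _), Finset.card_univ]
      unfold qq
      have : 1 ≤ Fintype.card k := Fintype.card_pos
      push_cast [this]
      ring
  -- pointwise bound
  have hpt : ∀ χ, |a χ * S χ| ≤ qq k * (if par (χ i) (ξ χ) then a χ ^ 2 else 0) +
      (|a χ| * |Φ (Function.update χ i (ξ χ))| +
        ∑ l ∈ univ.erase i, |a χ| * |Φ (Function.update χ i (χ l))|) := by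
    intro χ
    have hnn : 0 ≤ |a χ| * |Φ (Function.update χ i (ξ χ))| +
        ∑ l ∈ univ.erase i, |a χ| * |Φ (Function.update χ i (χ l))| := by positivity
    by_cases hp : HasPat π χ
    · by_cases hpar : par (χ i) (ξ χ)
      · rw [if_pos hpar, abs_mul]
        have h1 : |S χ| ≤ qq k * |a χ| := s4_parallel Φ hΦ π i χ hp (ξ χ) hpar
        have h2 : |a χ| * |S χ| ≤ |a χ| * (qq k * |a χ|) :=
          mul_le_mul_of_nonneg_left h1 (abs_nonneg _)
        have h3 : |a χ| * (qq k * |a χ|) = qq k * a χ ^ 2 := by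
          rw [← sq_abs (a χ)]
          ring
        linarith
      · rw [if_neg hpar, abs_mul, mul_zero, zero_add, ← Finset.mul_sum, ← mul_add]
        exact mul_le_mul_of_nonneg_left (s4_generic Φ hΦ π i hi χ hp (ξ χ) hpar) (abs_nonneg _)
    · have h0 : a χ = 0 := by
        rw [ha]
        unfold rs
        rw [if_neg hp]
      rw [h0] at hnn ⊢
      simp
  -- the parallel part
  have hpar : ∑ χ, (if par (χ i) (ξ χ) then a χ ^ 2 else 0) ≤ 2 / (qq k - 1) * nr a := by
    obtain ⟨l, hl⟩ : ∃ l, w l ≠ 0 := by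
      by_contra hcon
      push Not at hcon
      exact hw0 (funext hcon)
    have hli : l ≠ i := by
      rintro rfl
      exact hl hw
    have h1 := count_lemma a hTa (Pi.single i 1) w i l (by simp [hli, hl]) (by
      intro χ hχ hp
      have hp2 : HasPat π χ := by
        by_contra hcon
        apply hχ
        rw [ha]
        unfold rs
        rw [if_neg hcon]
      have h3 := (hp2.2 i l).1 hp
      rw [hi l hli] at h3
      exact absurd h3 (by simp))
    have h2 : ∀ χ : Tup (r + 2) k, ∑ j, (Pi.single i (1 : k) : Fin (r + 2) → k) j • χ j = χ i := by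
      intro χ
      rw [Finset.sum_eq_single i]
      · simp
      · intro j _ hj
        simp [hj]
      · intro h
        exact absurd (Finset.mem_univ _) h
    simp only [h2] at h1
    exact h1
  set n := nr Φ with hn
  have hn0 : 0 ≤ n := nr_nonneg Φ
  have han : nr a ≤ n := s4_nr_rs π Φ
  have hC0 : 0 ≤ qq k ^ 2 / (qq k - 1) := by positivity
  have hterm : ∀ z : Tup (r + 2) k → k × k,
      ∑ χ, |a χ| * |Φ (Function.update χ i (z χ))| ≤
        Real.sqrt (qq k ^ 2 / (qq k - 1)) * n := fun z =>
    s4_cs a (fun χ => Φ (Function.update χ i (z χ))) n _ hn0 hC0 han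
      (s4_l2 Φ hΦ.scale hΦ.zero i z)
  have hsum : |ip a S| ≤ qq k * (2 / (qq k - 1) * n) +
      (r + 2) * (Real.sqrt (qq k ^ 2 / (qq k - 1)) * n) := by
    have h1 : |ip a S| ≤ ∑ χ, |a χ * S χ| := Finset.abs_sum_le_sum_abs _ _
    have h2 := h1.trans (Finset.sum_le_sum fun χ _ => hpt χ)
    rw [Finset.sum_add_distrib, Finset.sum_add_distrib, ← Finset.mul_sum, Finset.sum_comm] at h2
    have h3 : ∑ l ∈ univ.erase i, ∑ χ, |a χ| * |Φ (Function.update χ i (χ l))| ≤
        (r + 1) * (Real.sqrt (qq k ^ 2 / (qq k - 1)) * n) := by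
      refine (Finset.sum_le_sum fun l _ => hterm fun χ => χ l).trans ?_
      rw [Finset.sum_const, Finset.card_erase_of_mem (Finset.mem_univ _), Finset.card_univ,
        Fintype.card_fin, nsmul_eq_mul]
      apply le_of_eq
      congr 1
      push_cast [Nat.add_sub_cancel]
      norm_num
    have h4 : qq k * ∑ χ, (if par (χ i) (ξ χ) then a χ ^ 2 else 0) ≤
        qq k * (2 / (qq k - 1) * n) := by
      apply mul_le_mul_of_nonneg_left (hpar.trans ?_) (by linarith)
      exact mul_le_mul_of_nonneg_left han (by positivity)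
    have h5 := hterm ξ
    linarith
  have hcabs : (qq k - 1) * |c| ≤ n + qq k * (2 / (qq k - 1) * n) +
      (r + 2) * (Real.sqrt (qq k ^ 2 / (qq k - 1)) * n) := by
    have h1 : (qq k - 1) * |c| = |ip a S - nr a| := by
      rw [hS, add_sub_cancel_left, abs_mul, abs_of_pos hQ]
    rw [h1]
    have h2 : |ip a S - nr a| ≤ |ip a S| + |nr a| := abs_sub _ _
    rw [abs_of_nonneg (nr_nonneg a)] at h2
    linarith
  exact s4_final (qq k) n (r + 2) |c| hQ2 hn0 (by
    have : (0 : ℝ) ≤ r := Nat.cast_nonneg r
    linarith) hcabs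

end

end PL
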